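import Mathlib

set_option autoImplicit false

namespace Pool.Agent.H.MP_96d1d5_an

open scoped Manifold ContDiff Topology
open Filter Real

attribute [local instance] finrank_real_complex_fact'

abbrev T : Type := Circle × Circle
noncomputable abbrev IT := (𝓡 1).prod (𝓡 1)

noncomputable def pr (z : ℝ × ℝ) : T := (Circle.exp z.1, Circle.exp z.2)
def io (p : T) : ℂ × ℂ := (p.1, p.2)
noncomputable def lift (g : T → T) (z : ℝ × ℝ) : ℂ × ℂ := io (g (pr z))

abbrev Sm (g : T → T) : Prop := ContMDiff IT IT ∞ g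

lemma sm_coe : ContMDiff (𝓡 1) 𝓘(ℝ, ℂ) ∞ (fun z : Circle => (z : ℂ)) := contMDiff_coe_sphere

lemma sm_io : ContMDiff IT 𝓘(ℝ, ℂ × ℂ) ∞ io :=
  (sm_coe.comp contMDiff_fst).prodMk_space (sm_coe.comp contMDiff_snd)

lemma sm_pr : ContMDiff 𝓘(ℝ, ℝ × ℝ) IT ∞ pr :=
  (contMDiff_circleExp.comp contDiff_fst.contMDiff).prodMk
    (contMDiff_circleExp.comp contDiff_snd.contMDiff)

lemma Sm.lift {g : T → T} (hg : Sm g) : ContDiff ℝ ∞ (lift g) :=
  (sm_io.comp (hg.comp sm_pr)).contDiff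

lemma pr_surj : Function.Surjective pr := Circle.exp_surjective.prodMap Circle.exp_surjective

lemma dist_io (p q : T) : ‖io p - io q‖ = dist p q := by rw [← dist_eq_norm]; rfl

lemma sect (z0 : Circle) : ∃ s : Circle → ℝ, ContMDiffAt (𝓡 1) 𝓘(ℝ, ℝ) ∞ s z0 ∧
    ∀ z, Circle.exp (s z) = z := by
  refine ⟨fun z => Complex.arg z0 + (Complex.log ((z : ℂ) * (z0 : ℂ)⁻¹)).im, ?_, fun z => ?_⟩
  · have h : ContDiffAt ℝ ∞ (fun z : ℂ => Complex.arg z0 + (Complex.log (z * (z0 : ℂ)⁻¹)).im) z0 :=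
      contDiffAt_const.add (Complex.imCLM.contDiff.contDiffAt.comp _
        (((Complex.contDiffAt_log (by simp)).restrict_scalars ℝ).comp _
          (contDiffAt_id.mul contDiffAt_const)))
    exact h.contMDiffAt.comp z0 (sm_coe z0)
  · beta_reduce
    rw [Complex.log_im, Circle.exp_add, ← Circle.coe_inv, ← Circle.coe_mul, Circle.exp_arg,
      Circle.exp_arg]
    simp

lemma sm_of_lift {g : T → T} (hg : ContDiff ℝ ∞ (lift g)) : Sm g := by
  have h : ContMDiff IT 𝓘(ℝ, ℂ × ℂ) ∞ (io ∘ g) := fun p => by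
    obtain ⟨s, h1, h2⟩ := sect p.1
    obtain ⟨t, h3, h4⟩ := sect p.2
    have : io ∘ g = lift g ∘ fun p => (s p.1, t p.2) := funext fun p => by simp [lift, pr, h2, h4]
    rw [this]
    exact hg.contMDiff.contMDiffAt.comp p
      ((h1.comp p contMDiffAt_fst).prodMk_space (h3.comp p contMDiffAt_snd))
  exact ((contDiff_fst.contMDiff.comp h).codRestrict_sphere fun p => (g p).1.2).prodMk
    ((contDiff_snd.contMDiff.comp h).codRestrict_sphere fun p => (g p).2.2)

def Df : Subgroup (Equiv.Perm T) where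
  carrier := {g | Sm g ∧ Sm ⇑g⁻¹}
  one_mem' := ⟨contMDiff_id, contMDiff_id⟩
  mul_mem' := fun ha hb => ⟨ha.1.comp hb.1, by rw [mul_inv_rev]; exact hb.2.comp ha.2⟩
  inv_mem' := fun ha => ⟨ha.2, ha.1⟩

noncomputable def rot (t : ℝ) : Equiv.Perm T := Equiv.mulLeft (Circle.exp t, 1)

lemma rot_apply (t : ℝ) (p : T) : rot t p = (Circle.exp t * p.1, p.2) := by ext <;> simp [rot]

lemma rot_add (s t : ℝ) : rot (s + t) = rot s * rot t := by ext p <;> simp [rot_apply, mul_assoc]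

lemma rot_zpow (t : ℝ) (j : ℤ) : rot t ^ j = rot (j * t) := by
  rw [rot, Equiv.zpow_mulLeft, rot]; congr 1; simp

noncomputable def sh1 (N : ℕ) : Equiv.Perm T where
  toFun p := (p.1 * p.2 ^ N, p.2)
  invFun p := (p.1 * (p.2 ^ N)⁻¹, p.2)
  left_inv p := by simp
  right_inv p := by simp

noncomputable def sh2 (Q : ℕ) : Equiv.Perm T where
  toFun p := (p.1, p.2 * Circle.exp (5 * ((p.1 ^ Q : Circle) : ℂ).re))
  invFun p := (p.1, p.2 * (Circle.exp (5 * ((p.1 ^ Q : Circle) : ℂ).re))⁻¹)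
  left_inv p := by simp
  right_inv p := by simp

instance : LieGroup (𝓡 1) ∞ Circle := LieGroup.of_le (n := ω) le_top

lemma sh1_mem (N : ℕ) : sh1 N ∈ Df :=
  ⟨(contMDiff_fst.mul (contMDiff_snd.pow N)).prodMk contMDiff_snd,
    (contMDiff_fst.mul (contMDiff_snd.pow N).inv).prodMk contMDiff_snd⟩

lemma sh2_mem (Q : ℕ) : sh2 Q ∈ Df := by
  have h : ContMDiff IT (𝓡 1) ∞ fun p : T => Circle.exp (5 * ((p.1 ^ Q : Circle) : ℂ).re) :=
    contMDiff_circleExp.comp ((contDiff_const.mul Complex.reCLM.contDiff).contMDiff.comp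
      (sm_coe.comp (contMDiff_fst.pow Q)))
  exact ⟨contMDiff_fst.prodMk (contMDiff_snd.mul h), contMDiff_fst.prodMk (contMDiff_snd.mul h.inv)⟩

lemma rot_mem (t : ℝ) : rot t ∈ Df :=
  ⟨contMDiff_const.mul contMDiff_id, contMDiff_const.mul contMDiff_id⟩

lemma comm_sh (N Q : ℕ) {t : ℝ} (ht : Circle.exp t ^ Q = 1) :
    sh1 N * sh2 Q * rot t * (sh1 N * sh2 Q)⁻¹ = rot t := by
  rw [mul_inv_eq_iff_eq_mul]
  ext1 p
  simp only [sh1, sh2, rot_apply, Equiv.Perm.mul_apply, Equiv.coe_fn_mk, mul_pow, ht, one_mul,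
    mul_assoc]

lemma near (u : ℝ) : ∃ k : ℤ, |u + k * (2 * π)| ≤ π := by
  refine ⟨-round (u / (2 * π)), ?_⟩
  have h := abs_sub_round (u / (2 * π))
  have : u + ((-round (u / (2 * π)) : ℤ) : ℝ) * (2 * π) =
      (u / (2 * π) - round (u / (2 * π))) * (2 * π) := by push_cast; field_simp; ring
  rw [this, abs_mul, abs_of_pos two_pi_pos]
  nlinarith [pi_pos]

lemma dist_exp (u v : ℝ) : dist (Circle.exp u) (Circle.exp v) ≤ |u - v| := by
  have := Real.norm_exp_I_mul_ofReal_sub_one_le (x := u - v)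
  change dist (Circle.exp u : ℂ) (Circle.exp v) ≤ _
  rw [dist_eq_norm, show (Circle.exp u : ℂ) - Circle.exp v =
    Circle.exp v * (Complex.exp (Complex.I * (u - v : ℝ)) - 1) by
      rw [mul_sub, Circle.coe_exp v, ← Complex.exp_add, Circle.coe_exp]; push_cast; ring_nf,
    norm_mul, Circle.norm_coe, one_mul]
  exact this

lemma mix {ρ : ℝ} {N Q : ℕ} (hN : 1 ≤ N) (hQ : 1 ≤ Q) (h1 : π / N ≤ ρ) (h2 : 2 * π / Q ≤ ρ)
    (p p' : T) : ∃ p1, dist p1 p ≤ ρ ∧
      dist ((sh1 N * sh2 Q * rot (π / Q) * (sh1 N * sh2 Q)⁻¹) p1) p' ≤ ρ := by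
  obtain ⟨⟨a, b⟩, rfl⟩ := pr_surj p
  obtain ⟨⟨c, d⟩, rfl⟩ := pr_surj p'
  have hN' : (1 : ℝ) ≤ N := by exact_mod_cast hN
  have hQ' : (1 : ℝ) ≤ Q := by exact_mod_cast hQ
  obtain ⟨k1, e1⟩ := near (d - b)
  obtain ⟨k2, e2⟩ := near (c - a + N * b - N * (d + k1 * (2 * π)))
  set r := c - a + N * b - N * (d + k1 * (2 * π)) + k2 * (2 * π) with hr
  set y := d + k1 * (2 * π) + r / N with hy
  obtain ⟨k3, e3⟩ := near (arccos ((b - y) / 10) - Q * (a - N * b))
  set x := (arccos ((b - y) / 10) + k3 * (2 * π)) / Q with hx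
  have e4 : |r / N| ≤ π / N := by
    rw [abs_div, Nat.abs_cast]; exact div_le_div_of_nonneg_right e2 (by positivity)
  have e5 : π / N ≤ π := div_le_self pi_pos.le hN'
  have e6 : cos (Q * x) = (b - y) / 10 := by
    rw [hx, mul_div_cancel₀ _ (by positivity), cos_add_int_mul_two_pi, cos_arccos] <;>
      rw [abs_le] at e1 e4 <;> linarith [pi_le_four]
  have e7 : |x - (a - N * b)| ≤ π / Q := by
    rw [le_div_iff₀ (by positivity), ← Nat.abs_cast (R := ℝ) Q, ← abs_mul]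
    refine le_of_eq_of_le (congrArg _ ?_) e3
    rw [hx]; field_simp; ring
  have e8 : 0 < π / Q := by positivity
  have e9 : 2 * π / Q = 2 * (π / Q) := by ring
  have hre : ∀ t : ℝ, ((Circle.exp t ^ Q : Circle) : ℂ).re = cos (Q * t) := fun t => by
    rw [← Circle.exp_natCast_mul, Circle.coe_exp, Complex.exp_ofReal_mul_I_re]
  refine ⟨pr (x + N * b, b), ?_, ?_⟩
  · refine max_le ((dist_exp _ _).trans ?_) (by rw [pr, pr, dist_self]; linarith)
    rw [show x + N * b - a = x - (a - N * b) by ring]; linarith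
  · have f1 : (sh1 N * sh2 Q)⁻¹ (pr (x + N * b, b)) = pr (x, b - 5 * cos (Q * x)) := by
      rw [Equiv.Perm.inv_eq_iff_eq]
      simp [sh1, sh2, pr, -Circle.coe_pow, hre]
    have f2 : (sh1 N * sh2 Q) (rot (π / Q) (pr (x, b - 5 * cos (Q * x)))) =
        pr (π / Q + x + N * y, y) := by
      have : Circle.exp (b - 5 * cos (Q * x)) * Circle.exp (5 * cos (Q * (π / Q + x))) =
          Circle.exp y := by
        rw [← Circle.exp_add, show Q * (π / Q + x) = Q * x + π by field_simp; ring, cos_add_pi, e6]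
        congr 1; ring
      simp only [sh1, sh2, pr, rot_apply, Equiv.Perm.mul_apply, Equiv.coe_fn_mk]
      rw [← Circle.exp_add, hre, this, ← Circle.exp_natCast_mul, ← Circle.exp_add]
    rw [Equiv.Perm.mul_apply, Equiv.Perm.mul_apply, f1, f2]
    refine max_le ?_ ?_
    · rw [pr, pr, show Circle.exp c = Circle.exp (c + k2 * (2 * π)) by simp]
      refine (dist_exp _ _).trans ?_
      rw [show π / Q + x + N * y - (c + k2 * (2 * π)) = π / Q + (x - (a - N * b)) by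
        rw [hy, mul_add, mul_div_cancel₀ _ (by positivity), hr]; ring]
      rw [abs_le] at e7 ⊢
      constructor <;> linarith
    · rw [pr, pr, show Circle.exp d = Circle.exp (d + k1 * (2 * π)) by simp]
      refine (dist_exp _ _).trans ?_
      rw [hy, add_sub_cancel_left]; linarith

lemma param {E F G : Type} [NormedAddCommGroup E] [NormedSpace ℝ E] [NormedAddCommGroup F]
    [NormedSpace ℝ F] [NormedAddCommGroup G] [NormedSpace ℝ G] {f : E → F → G}
    (hf : ContDiff ℝ ∞ (Function.uncurry f)) (r : ℕ) :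
    ContDiff ℝ ∞ fun p : E × F => iteratedFDeriv ℝ r (f p.1) p.2 := by
  induction r with
  | zero => exact (continuousMultilinearCurryFin0 ℝ F G).symm.contDiff.comp hf
  | succ r ih =>
    simp only [iteratedFDeriv_succ_eq_comp_left]
    refine (LinearIsometryEquiv.contDiff _).comp (ContDiff.fderiv (m := ∞)
      (f := fun p : E × F => iteratedFDeriv ℝ r (f p.1)) ?_ contDiff_snd le_rfl)
    exact ih.comp ((contDiff_fst.comp contDiff_fst).prodMk contDiff_snd)

lemma lift_per (g : T → T) (r : ℕ) (z : ℝ × ℝ) : ∃ z' ∈ Metric.closedBall (0 : ℝ × ℝ) π,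
    ∀ g : T → T, iteratedFDeriv ℝ r (lift g) z = iteratedFDeriv ℝ r (lift g) z' := by
  obtain ⟨k, h1⟩ := near z.1
  obtain ⟨l, h2⟩ := near z.2
  refine ⟨z + (k * (2 * π), l * (2 * π)), by simpa [Prod.norm_def] using ⟨h1, h2⟩, fun g => ?_⟩
  rw [← iteratedFDeriv_comp_add_right]
  congr 1
  ext1 w
  simp [lift, pr]

lemma cont {H : Equiv.Perm T} (hH : H ∈ Df) (r : ℕ) (t0 : ℝ) {ε : ℝ} (hε : 0 < ε) :
    ∀ᶠ t in 𝓝 t0, ∀ z, ‖iteratedFDeriv ℝ r (lift ⇑(H * rot t * H⁻¹)) z -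
      iteratedFDeriv ℝ r (lift ⇑(H * rot t0 * H⁻¹)) z‖ < ε := by
  have h1 : ContDiff ℝ ∞ (Function.uncurry fun t => lift ⇑(H * rot t * H⁻¹)) := by
    refine (sm_io.comp (hH.1.comp (ContMDiff.mul (f := fun p : ℝ × ℝ × ℝ => (Circle.exp p.1, 1))
      ((contMDiff_circleExp.comp contDiff_fst.contMDiff).prodMk contMDiff_const)
      (hH.2.comp (sm_pr.comp contDiff_snd.contMDiff))))).contDiff
  have h2 := (param h1 r).continuous
  have h3 := (isCompact_closedBall (0 : ℝ × ℝ) π).eventually_forall_of_forall_eventually (x₀ := t0)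
    (P := fun t z => ‖iteratedFDeriv ℝ r (lift ⇑(H * rot t * H⁻¹)) z -
      iteratedFDeriv ℝ r (lift ⇑(H * rot t0 * H⁻¹)) z‖ < ε) fun z _ =>
    ((h2.sub (h2.comp (continuous_const.prodMk continuous_snd))).norm.tendsto' _ 0
      (by simp)).eventually (gt_mem_nhds hε)
  filter_upwards [h3] with t ht z
  obtain ⟨z', h4, h5⟩ := lift_per id r z
  rw [h5, h5]; exact ht z' h4

end Pool.Agent.H.MP_96d1d5_an
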