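import Pool.Agent.H.MP_96d1d5_an.A

set_option autoImplicit false

namespace Pool.Agent.H.MP_96d1d5_an

open scoped Manifold ContDiff Topology
open Filter Real

structure St where
  H : Equiv.Perm T
  hH : H ∈ Df
  α : ℝ
  q : ℕ
  M : ℕ
  hq : Circle.exp α ^ q = 1
  q0 : 0 < q
  qM : q ≤ M

noncomputable def St.F (s : St) : Equiv.Perm T := s.H * rot s.α * s.H⁻¹

lemma St.zp (s : St) (j : ℤ) : s.F ^ j = s.H * rot (j * s.α) * s.H⁻¹ := by
  rw [St.F, conj_zpow, rot_zpow]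

lemma St.mem (s : St) (j : ℤ) : s.F ^ j ∈ Df :=
  zpow_mem (mul_mem (mul_mem s.hH (rot_mem _)) (inv_mem s.hH)) j

lemma St.per (s : St) : s.F ^ (s.q : ℤ) = 1 := by
  have : rot ((s.q : ℤ) * s.α) = 1 := by ext p <;> simp [rot_apply, s.hq]
  rw [s.zp, this]; simp

lemma step (n : ℕ) (s : St) : ∃ s' : St, s.M < s'.M ∧
    (∀ j : ℤ, |j| ≤ s.M → ∀ r ≤ n, ∀ z, ‖iteratedFDeriv ℝ r (lift ⇑(s'.F ^ j)) z -
      iteratedFDeriv ℝ r (lift ⇑(s.F ^ j)) z‖ < 1 / 2 / 2 ^ n) ∧
    ∃ m : ℕ, m ≤ s'.M ∧ ∀ p p', ∃ p1, dist p1 p < 1 / 2 ^ n ∧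
      dist ((s'.F ^ (m : ℤ)) p1) p' < 1 / 2 ^ n := by
  obtain ⟨ρ, hρ, h1⟩ := Metric.uniformContinuous_iff.1
    (CompactSpace.uniformContinuous_of_continuous s.hH.1.continuous) (1 / 2 ^ n) (by positivity)
  obtain ⟨N, hN⟩ := exists_nat_gt (4 * π / ρ)
  have hN0 : 0 < N := Nat.cast_pos.1 (lt_trans (by positivity) hN)
  have hq : (1 : ℝ) ≤ s.q := by exact_mod_cast s.q0
  have hN' : (0 : ℝ) < N := by positivity
  rw [div_lt_iff₀ hρ] at hN
  set Q := s.q * N with hQ
  have hQ0 : 0 < Q := Nat.mul_pos s.q0 hN0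
  let H' := s.H * (sh1 N * sh2 Q)
  have hH' : H' ∈ Df := mul_mem s.hH (mul_mem (sh1_mem _) (sh2_mem _))
  have h2 : ∀ j : ℤ, H' * rot (j * s.α) * H'⁻¹ = s.F ^ j := fun j => by
    rw [s.zp]
    conv_rhs => rw [← comm_sh N Q (t := j * s.α) (by
      rw [Circle.exp_intCast_mul, ← zpow_natCast, ← zpow_mul, mul_comm, zpow_mul, zpow_natCast, hQ,
        pow_mul, s.hq, one_pow, one_zpow])]
    simp only [H']; group
  have h3 : Tendsto (fun L : ℕ => s.α + π / Q / s.q / L) atTop (𝓝 s.α) := by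
    simpa using tendsto_const_nhds.add (tendsto_const_div_atTop_nhds_zero_nat (π / Q / s.q : ℝ))
  obtain ⟨L, h4, hL⟩ := ((((Finset.Icc (-s.M : ℤ) s.M).eventually_all.2 fun j _ =>
    (Finset.range (n + 1)).eventually_all.2 fun r _ => (h3.const_mul (j : ℝ)).eventually
    (cont hH' r (j * s.α) (show 0 < 1 / 2 / 2 ^ n by positivity)))).and
    (eventually_gt_atTop 0)).exists
  have hL' : (0 : ℝ) < L := by positivity
  have hQ' : (0 : ℝ) < Q := by positivity
  refine ⟨⟨H', hH', s.α + π / Q / s.q / L, 2 * Q * (s.q * L), s.M + 1 + 2 * Q * (s.q * L), ?_,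
    by have := s.q0; positivity, by omega⟩, by simp only; omega, fun j hj r hr z => ?_, s.q * L,
    le_add_left (Nat.le_mul_of_pos_left _ (by omega)), fun p p' => ?_⟩
  · rw [Circle.exp_add, mul_pow, ← Circle.exp_natCast_mul (_ / _),
      show ((2 * Q * (s.q * L) : ℕ) : ℝ) * (π / Q / s.q / L) = 2 * π by push_cast; field_simp,
      show 2 * Q * (s.q * L) = s.q * (2 * Q * L) by ring, pow_mul, s.hq]
    simp
  · rw [← h2, St.zp]
    exact h4 j (Finset.mem_Icc.2 (abs_le.1 hj)) r (Finset.mem_range.2 (by omega)) z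
  · obtain ⟨p1, h5, h6⟩ := mix (ρ := ρ / 2) (N := N) (Q := Q) hN0 hQ0
      (by rw [div_le_iff₀ hN']; linarith [pi_pos])
      (by rw [div_le_iff₀ hQ', hQ]; push_cast; nlinarith [pi_pos]) (s.H⁻¹ p) (s.H⁻¹ p')
    refine ⟨s.H p1, by simpa using h1 (h5.trans_lt (half_lt_self hρ)), ?_⟩
    have : rot (((s.q * L : ℕ) : ℤ) * (s.α + π / Q / s.q / L)) = rot (π / Q) := by
      rw [rot, rot, mul_add, Circle.exp_add, Int.cast_natCast, Circle.exp_natCast_mul, pow_mul, s.hq,
        show ((s.q * L : ℕ) : ℝ) * (π / Q / s.q / L) = π / Q by push_cast; field_simp]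
      simp
    rw [St.zp]
    simp only [this]
    simpa [H'] using h1 (h6.trans_lt (half_lt_self hρ))

noncomputable def sq : ℕ → St
  | 0 => ⟨1, one_mem _, 0, 1, 1, by simp, one_pos, le_rfl⟩
  | n + 1 => (step n (sq n)).choose

lemma sq_M : StrictMono fun n => (sq n).M :=
  strictMono_nat_of_lt_succ fun n => (step n (sq n)).choose_spec.1

noncomputable def c (n : ℕ) (j : ℤ) : T → T := ⇑((sq n).F ^ j)

lemma c_sm (n : ℕ) (j : ℤ) : Sm (c n j) := ((sq n).mem j).1

lemma c_close {n : ℕ} {j : ℤ} (hj : |j| ≤ (sq n).M) (k : ℕ) {r : ℕ} (hr : r ≤ n + k) (z : ℝ × ℝ) :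
    ‖iteratedFDeriv ℝ r (fun z => lift (c (n + (k + 1)) j) z - lift (c (n + k) j) z) z‖ ≤
      1 / 2 ^ n / 2 / 2 ^ k := by
  rw [fun_iteratedFDeriv_sub_apply ((c_sm _ _).lift.of_le (mod_cast le_top)).contDiffAt
    ((c_sm _ _).lift.of_le (mod_cast le_top)).contDiffAt]
  refine ((step (n + k) (sq (n + k))).choose_spec.2.1 j (hj.trans (by
    exact_mod_cast sq_M.monotone (Nat.le_add_right n k))) r hr z).le.trans_eq ?_
  rw [pow_add]; field_simp

lemma c_dist {n : ℕ} {j : ℤ} (hj : |j| ≤ (sq n).M) (k : ℕ) (p : T) :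
    dist (c (n + k) j p) (c (n + (k + 1)) j p) ≤ 1 / 2 ^ n / 2 / 2 ^ k := by
  obtain ⟨z, rfl⟩ := pr_surj p
  have := c_close hj k (Nat.zero_le _) z
  rwa [norm_iteratedFDeriv_zero, lift, lift, dist_io, dist_comm] at this

lemma hM (j : ℤ) {n : ℕ} (h : j.natAbs ≤ n) : |j| ≤ (sq n).M := by
  have := h.trans (sq_M.le_apply (x := n))
  rw [Int.abs_eq_natAbs]; exact_mod_cast this

lemma c_lim (j : ℤ) (p : T) : ∃ y, Tendsto (fun n => c n j p) atTop (𝓝 y) := by
  obtain ⟨y, hy⟩ := cauchySeq_tendsto_of_complete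
    (cauchySeq_of_le_geometric_two fun k => c_dist (hM j le_rfl) k p)
  exact ⟨y, (tendsto_add_atTop_iff_nat j.natAbs).1 (by simpa only [add_comm] using hy)⟩

noncomputable def g (j : ℤ) (p : T) : T := (c_lim j p).choose

lemma g_lim (j : ℤ) (p : T) (n : ℕ) : Tendsto (fun k => c (n + k) j p) atTop (𝓝 (g j p)) := by
  simpa only [add_comm, g] using (tendsto_add_atTop_iff_nat n).2 (c_lim j p).choose_spec

lemma g_dist {n : ℕ} {j : ℤ} (hj : |j| ≤ (sq n).M) (p : T) : dist (c n j p) (g j p) ≤ 1 / 2 ^ n :=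
  dist_le_of_le_geometric_two_of_tendsto₀ (fun k => c_dist hj k p) (g_lim j p n)

lemma g_sum {n : ℕ} {j : ℤ} (hj : |j| ≤ (sq n).M) : (fun z => lift (g j) z - lift (c n j) z) =
    fun z => ∑' k, (lift (c (n + (k + 1)) j) z - lift (c (n + k) j) z) := by
  ext1 z
  have h1 : Summable fun k => lift (c (n + (k + 1)) j) z - lift (c (n + k) j) z :=
    .of_norm_bounded (summable_geometric_two' _) fun k => by
      simpa only [norm_iteratedFDeriv_zero] using c_close hj k (Nat.zero_le _) z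
  refine tendsto_nhds_unique ?_ h1.hasSum.tendsto_sum_nat
  simp only [Finset.sum_range_sub fun k => lift (c (n + k) j) z]
  exact ((sm_io.continuous.tendsto _).comp (g_lim j _ n)).sub_const _

lemma g_sm (j : ℤ) : Sm (g j) := by
  have hj := hM j le_rfl
  have h : ContDiff ℝ ∞ fun z => lift (g j) z - lift (c j.natAbs j) z := by
    rw [g_sum hj]
    exact contDiff_tsum_of_eventually (fun k => (c_sm _ _).lift.sub (c_sm _ _).lift)
      (fun r _ => summable_geometric_two' (1 / 2 ^ j.natAbs)) fun r _ => by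
        rw [Nat.cofinite_eq_atTop]
        filter_upwards [eventually_ge_atTop r] with k hk z using c_close hj k (by omega) z
  exact sm_of_lift (by simpa using h.add (c_sm j.natAbs j).lift)

lemma g_add (i j : ℤ) (p : T) : g (i + j) p = g i (g j p) := by
  refine tendsto_nhds_unique (g_lim _ p 0) ?_
  have h1 := ((g_sm i).continuous.tendsto _).comp (g_lim j p 0)
  refine h1.congr_dist (squeeze_zero' (Eventually.of_forall fun _ => dist_nonneg) ?_
    (g := fun n => 1 / 2 ^ n) ?_)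
  · filter_upwards [eventually_ge_atTop i.natAbs] with n hn
    rw [dist_comm, zero_add, c, zpow_add]
    simpa [c] using g_dist (hM i hn) (c n j p)
  · simpa using tendsto_pow_atTop_nhds_zero_of_lt_one (r := (2⁻¹ : ℝ)) (by norm_num) (by norm_num)

lemma g_zero (p : T) : g 0 p = p := tendsto_nhds_unique (g_lim 0 p 0) (by simp [c])

noncomputable def f : Equiv.Perm T where
  toFun := g 1
  invFun := g (-1)
  left_inv p := by rw [← g_add]; exact g_zero p
  right_inv p := by rw [← g_add]; exact g_zero p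

lemma f_mem : f ∈ Df := ⟨g_sm 1, g_sm (-1)⟩

lemma f_pow (m : ℕ) : ⇑(f ^ m) = g m := by
  induction m with
  | zero => exact funext fun p => (g_zero p).symm
  | succ m ih => exact funext fun p => by rw [pow_succ, Equiv.Perm.mul_apply, ih, Nat.cast_succ, g_add]; rfl

lemma f_rigid {r n : ℕ} (h : r ≤ n) (z : ℝ × ℝ) :
    ‖iteratedFDeriv ℝ r (fun z => lift ⇑(f ^ (sq n).q) z - lift id z) z‖ ≤ 1 / 2 ^ n := by
  have hj : |((sq n).q : ℤ)| ≤ (sq n).M := by rw [Nat.abs_cast]; exact_mod_cast (sq n).qM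
  have := g_sum hj
  rw [c, St.per] at this
  rw [f_pow]
  erw [this]
  rw [iteratedFDeriv_tsum_apply (N := r) (fun k => ((c_sm _ _).lift.sub (c_sm _ _).lift).of_le
    (mod_cast le_top)) (fun r _ => summable_geometric_two' (1 / 2 ^ n))
    (fun i k z hi => c_close hj k (by norm_cast at hi; omega) z) le_rfl]
  exact tsum_of_norm_bounded (hasSum_geometric_two' _) fun k => c_close hj k (by omega) z

lemma f_mix {ε : ℝ} (hε : 0 < ε) :
    ∃ m : ℕ, ∀ p p', ∃ p1, dist p1 p < ε ∧ dist ((f ^ m) p1) p' < ε := by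
  obtain ⟨n, hn⟩ := exists_pow_lt_of_lt_one (half_pos hε) (show (1 / 2 : ℝ) < 1 by norm_num)
  obtain ⟨m, h1, h2⟩ := (step n (sq n)).choose_spec.2.2
  refine ⟨m, fun p p' => ?_⟩
  obtain ⟨p1, h3, h4⟩ := h2 p p'
  have h5 := g_dist (n := n + 1) (j := m) (by rw [Nat.abs_cast]; exact Nat.cast_le.2 h1) p1
  have h6 := dist_triangle_left (g m p1) p' (c (n + 1) m p1)
  rw [one_div_pow] at hn
  rw [pow_succ, ← div_div] at h5
  rw [f_pow]
  change dist (c (n + 1) m p1) p' < _ at h4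
  exact ⟨p1, by linarith, by linarith⟩

end Pool.Agent.H.MP_96d1d5_an
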