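import Pool.Agent.H.MP_96d1d5_an.B

set_option autoImplicit false

namespace Pool.Agent.H.MP_96d1d5_an

open scoped Manifold ContDiff Topology
open Filter Real

/-- The four-dimensional torus. -/
abbrev M : Type := T × T

/-- A self-map of the torus read in angle coordinates, with values in ℂ⁴. -/
noncomputable def lift4 (g : M → M) (z : (ℝ × ℝ) × (ℝ × ℝ)) : (ℂ × ℂ) × (ℂ × ℂ) :=
  Prod.map io io (g (Prod.map pr pr z))

/-- Smooth diffeomorphisms of a manifold. -/
def DiffOf {E H : Type} [NormedAddCommGroup E] [NormedSpace ℝ E] [TopologicalSpace H]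
    (I : ModelWithCorners ℝ E H) (X : Type) [TopologicalSpace X] [ChartedSpace H X] :
    Subgroup (Equiv.Perm X) where
  carrier := {g | ContMDiff I I ∞ g ∧ ContMDiff I I ∞ ⇑g⁻¹}
  one_mem' := ⟨contMDiff_id, contMDiff_id⟩
  mul_mem' := fun ha hb => ⟨ha.1.comp hb.1, hb.2.comp ha.2⟩
  inv_mem' := fun ha => ⟨ha.2, ha.1⟩

/-- Smooth diffeomorphisms of the four-dimensional torus. -/
noncomputable def Diff : Subgroup (Equiv.Perm M) := DiffOf (IT.prod IT) M

/-- The centralizer among smooth diffeomorphisms. -/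
noncomputable def Cent (f : Equiv.Perm M) : Subgroup (Equiv.Perm M) := Diff ⊓ Subgroup.centralizer {f}

/-- Uniform convergence of all derivatives. -/
@[reducible] noncomputable def derivTop {X V W : Type} [NormedAddCommGroup V] [NormedSpace ℝ V]
    [NormedAddCommGroup W] [NormedSpace ℝ W] (l : X → V → W) : TopologicalSpace X :=
  ⨅ r : ℕ, TopologicalSpace.induced
    (fun g => UniformFun.ofFun (iteratedFDeriv ℝ r (l g))) inferInstance

/-- The smooth topology. -/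
noncomputable instance cinf (f : Equiv.Perm M) : TopologicalSpace (Cent f) :=
  derivTop fun g : Cent f => lift4 g.1

lemma tendsto_cinf {f : Equiv.Perm M} {ι : Type} {l : Filter ι} {u : ι → Cent f} {g : Cent f} :
    Tendsto u l (𝓝 g) ↔ ∀ r, ∀ ε > 0, ∀ᶠ i in l, ∀ z,
      dist (iteratedFDeriv ℝ r (lift4 g.1) z) (iteratedFDeriv ℝ r (lift4 (u i).1) z) < ε := by
  simp only [cinf, derivTop, nhds_iInf, tendsto_iInf, nhds_induced, tendsto_comap_iff,
    UniformFun.tendsto_iff_tendstoUniformly, Metric.tendstoUniformly_iff]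
  rfl

lemma unif {f : Equiv.Perm M} (g : Cent f) {ε : ℝ} (hε : 0 < ε) :
    ∀ᶠ k : Cent f in 𝓝 g, ∀ x, dist (g.1 x) (k.1 x) < ε := by
  filter_upwards [tendsto_cinf.1 (tendsto_id (x := 𝓝 g)) 0 ε hε] with k hk x
  obtain ⟨z, rfl⟩ := pr_surj.prodMap pr_surj x
  have := hk z
  simp only [iteratedFDeriv_zero_eq_comp, Function.comp, LinearIsometryEquiv.dist_map] at this
  exact this

def cm {f : Equiv.Perm M} (g : Cent f) : C(M, M) := ⟨g.1, g.2.1.1.continuous⟩

lemma cm_cont {f : Equiv.Perm M} : Continuous (cm (f := f)) :=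
  continuous_iff_continuousAt.2 fun g => Metric.tendsto_nhds.2 fun ε hε => by
    filter_upwards [unif g hε] with k hk
    rw [dist_comm]; exact (ContinuousMap.dist_lt_iff hε).2 hk

lemma cm_inv {f : Equiv.Perm M} : Continuous fun g : Cent f => cm g⁻¹ :=
  continuous_iff_continuousAt.2 fun g => Metric.tendsto_nhds.2 fun ε hε => by
    obtain ⟨δ, hδ, h⟩ := Metric.uniformContinuous_iff.1
      (CompactSpace.uniformContinuous_of_continuous (cm g⁻¹).continuous) ε hε
    filter_upwards [unif g hδ] with k hk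
    exact (ContinuousMap.dist_lt_iff hε).2 fun x => by simpa [cm] using h (hk (k.1⁻¹ x))

lemma weil {L : Type*} [TopologicalSpace L] [Group L] [IsTopologicalGroup L]
    [LocallyCompactSpace L] (γ : L) (q : ℕ → ℕ) (hq : ∀ n, 0 < q n)
    (h : Tendsto (fun n => γ ^ q n) atTop (𝓝 1)) : ∃ K, IsCompact K ∧ ∀ m : ℕ, γ ^ m ∈ K := by
  obtain ⟨K, hK, h1⟩ := exists_compact_mem_nhds (1 : L)
  obtain ⟨t, ht⟩ := (hK.inter_right (isClosed_closure (s := Set.range fun m : ℕ => γ ^ m))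
    ).elim_finite_subcover (fun j : ℕ => (γ ^ (j + 1) * ·) ⁻¹' interior K)
    (fun j => isOpen_interior.preimage (by fun_prop)) fun x hx => by
      obtain ⟨_, h2, m, rfl⟩ := mem_closure_iff.1 hx.2 ((·⁻¹ * x) ⁻¹' interior K)
        (isOpen_interior.preimage (by fun_prop)) (by simpa using mem_interior_iff_mem_nhds.2 h1)
      have h3 := (h.pow (m + 1)).mul_const ((γ ^ m)⁻¹ * x)
      rw [one_pow, one_mul] at h3
      obtain ⟨n, hn⟩ := (h3.eventually (isOpen_interior.mem_nhds h2)).exists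
      obtain ⟨j, hj⟩ : ∃ j, q n * (m + 1) = j + 1 + m := ⟨q n * (m + 1) - 1 - m, by
        have := Nat.le_mul_of_pos_left (m + 1) (hq n); omega⟩
      refine Set.mem_iUnion.2 ⟨j, ?_⟩
      rwa [← pow_mul, hj, pow_add, mul_assoc, mul_inv_cancel_left] at hn
  have h2 : ∀ m : ℕ, ∃ i ≤ t.sup id, γ ^ (i + m) ∈ K := fun m => by
    induction m with
    | zero => exact ⟨0, Nat.zero_le _, by simpa using mem_of_mem_nhds h1⟩
    | succ m ih =>
      obtain ⟨_ | i, h2, h3⟩ := ih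
      · obtain ⟨j, hj, h4⟩ := Set.mem_iUnion₂.1 (ht ⟨h3, subset_closure ⟨_, rfl⟩⟩)
        refine ⟨j, Finset.le_sup (f := id) hj, interior_subset ?_⟩
        rwa [Set.mem_preimage, ← pow_add, show j + 1 + (0 + m) = j + (m + 1) by omega] at h4
      · exact ⟨i, by omega, by rwa [show i + (m + 1) = i + 1 + m by omega]⟩
  refine ⟨⋃ i ∈ Set.Iic (t.sup id), ((γ ^ i)⁻¹ * ·) '' K,
    (Set.finite_Iic _).isCompact_biUnion fun i _ => hK.image (by fun_prop), fun m => ?_⟩
  obtain ⟨i, h3, h4⟩ := h2 m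
  exact Set.mem_iUnion₂.2 ⟨i, h3, _, h4, by simp [pow_add]⟩

noncomputable def F : Equiv.Perm M := f.prodCongr f

lemma prod_mem {a b : Equiv.Perm T} (ha : a ∈ Df) (hb : b ∈ Df) : a.prodCongr b ∈ Diff :=
  ⟨ha.1.prodMap hb.1, ha.2.prodMap hb.2⟩

lemma prod_pow (a b : Equiv.Perm T) (m : ℕ) : (a.prodCongr b : Equiv.Perm M) ^ m =
    (a ^ m).prodCongr (b ^ m) := by
  induction m with
  | zero => rfl
  | succ m ih => rw [pow_succ, ih, pow_succ, pow_succ]; rfl

lemma F_trans : ∃ x, Dense (Set.range fun n : ℤ => (F ^ n) x) := by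
  have hc : ∀ m : ℕ, Continuous ⇑(F ^ m) := fun m => (pow_mem (prod_mem f_mem f_mem) m).1.continuous
  obtain ⟨x, hx⟩ := (dense_iInter_of_isOpen (f := fun i : ℕ × ℕ => ⋃ m : ℕ,
      ⇑(F ^ m) ⁻¹' Metric.ball (TopologicalSpace.denseSeq M i.1) (1 / (i.2 + 1)))
    (fun i => isOpen_iUnion fun m => Metric.isOpen_ball.preimage (hc m)) fun i p =>
      Metric.mem_closure_iff.2 fun ε hε => by
        obtain ⟨m, hm⟩ := f_mix (lt_min hε (Nat.one_div_pos_of_nat (n := i.2)))
        obtain ⟨a, h1, h2⟩ := hm p.1 (TopologicalSpace.denseSeq M i.1).1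
        obtain ⟨b, h3, h4⟩ := hm p.2 (TopologicalSpace.denseSeq M i.1).2
        rw [lt_min_iff] at h1 h2 h3 h4
        refine ⟨(a, b), Set.mem_iUnion.2 ⟨m, ?_⟩, by rw [dist_comm]; exact max_lt h1.1 h3.1⟩
        rw [F, prod_pow]; exact max_lt h2.2 h4.2).nonempty
  refine ⟨x, fun y => Metric.mem_closure_iff.2 fun ε hε => ?_⟩
  obtain ⟨i, hi⟩ := (TopologicalSpace.denseRange_denseSeq M).exists_dist_lt y (half_pos hε)
  obtain ⟨n, hn⟩ := exists_nat_one_div_lt (half_pos hε)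
  obtain ⟨m, hm⟩ := Set.mem_iUnion.1 (Set.mem_iInter.1 hx (i, n))
  refine ⟨_, ⟨m, rfl⟩, ?_⟩
  have := dist_triangle_right y ((F ^ m) x) (TopologicalSpace.denseSeq M i)
  rw [Set.mem_preimage, Metric.mem_ball] at hm
  simp only [zpow_natCast]; linarith

noncomputable def G : Cent F := ⟨f.prodCongr 1, prod_mem f_mem (one_mem _),
  Subgroup.mem_centralizer_singleton_iff.2 rfl⟩

noncomputable def S : Cent F := ⟨Equiv.prodComm _ _, ⟨contMDiff_snd.prodMk contMDiff_fst,
  contMDiff_snd.prodMk contMDiff_fst⟩, Subgroup.mem_centralizer_singleton_iff.2 rfl⟩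

lemma G_pow (m : ℕ) : (G ^ m).1 = (f ^ m).prodCongr 1 := by
  rw [SubmonoidClass.coe_pow, G, prod_pow, one_pow]

lemma lift4_sm {g : Equiv.Perm M} (hg : g ∈ Diff) : ContDiff ℝ ∞ (lift4 g) :=
  (((sm_io.comp contMDiff_fst).prodMk_space (sm_io.comp contMDiff_snd)).comp (hg.1.comp
    ((sm_pr.comp contDiff_fst.contMDiff).prodMk (sm_pr.comp contDiff_snd.contMDiff)))).contDiff

lemma bound {u : ℝ × ℝ → ℂ × ℂ} {r : ℕ} (hu : ContDiff ℝ r u) {C : ℝ}
    (h : ∀ z, ‖iteratedFDeriv ℝ r u z‖ ≤ C) (z : (ℝ × ℝ) × (ℝ × ℝ)) :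
    ‖iteratedFDeriv ℝ r (ContinuousLinearMap.inl ℝ (ℂ × ℂ) (ℂ × ℂ) ∘ u ∘
      ContinuousLinearMap.fst ℝ (ℝ × ℝ) (ℝ × ℝ)) z‖ ≤ C := by
  rw [ContinuousLinearMap.iteratedFDeriv_comp_left _ (hu.comp (by fun_prop)).contDiffAt le_rfl,
    ContinuousLinearMap.iteratedFDeriv_comp_right _ hu _ le_rfl]
  refine (ContinuousLinearMap.norm_compContinuousMultilinearMap_le _ _).trans ?_
  refine (mul_le_of_le_one_left (norm_nonneg _) (ContinuousLinearMap.norm_inl_le_one ..)).trans ?_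
  refine (ContinuousMultilinearMap.norm_compContinuousLinearMap_le _ _).trans ?_
  exact (mul_le_of_le_one_right (norm_nonneg _) (Finset.prod_le_one (fun _ _ => norm_nonneg _)
    fun _ _ => ContinuousLinearMap.norm_fst_le ..)).trans (h _)

lemma G_lift (m : ℕ) : (fun z => lift4 (G ^ m).1 z - lift4 (1 : Cent F).1 z) =
    ContinuousLinearMap.inl ℝ (ℂ × ℂ) (ℂ × ℂ) ∘ (fun z => lift ⇑(f ^ m) z - lift id z) ∘
      ContinuousLinearMap.fst ℝ (ℝ × ℝ) (ℝ × ℝ) := funext fun z => by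
  rw [G_pow]; exact Prod.ext rfl (sub_self _)

lemma G_rigid : Tendsto (fun n => G ^ (sq n).q) atTop (𝓝 1) := tendsto_cinf.2 fun r ε hε => by
  filter_upwards [eventually_ge_atTop r, (tendsto_pow_atTop_nhds_zero_of_lt_one (r := (1 / 2 : ℝ))
    (by norm_num) (by norm_num)).eventually (gt_mem_nhds hε)] with n h1 h2 z
  have h3 : ContDiff ℝ r fun z => lift ⇑(f ^ (sq n).q) z - lift id z :=
    ((pow_mem f_mem _).1.lift.sub (Sm.lift contMDiff_id)).of_le (mod_cast le_top)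
  have h4 := bound h3 (f_rigid h1) z
  rw [← G_lift, fun_iteratedFDeriv_sub_apply
    ((lift4_sm (G ^ _).2.1).of_le (mod_cast le_top)).contDiffAt
    ((lift4_sm (1 : Cent F).2.1).of_le (mod_cast le_top)).contDiffAt, ← one_div_pow] at h4
  rw [dist_comm, dist_eq_norm]
  exact h4.trans_lt h2

theorem main (A : Subgroup (Cent F)) [A.Normal] (hA : A ≤ Subgroup.center _) (L : Type*)
    [TopologicalSpace L] [Group L] [IsTopologicalGroup L] [LocallyCompactSpace L] :
    IsEmpty ((Cent F ⧸ A) ≃ₜ* L) := ⟨fun e => by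
  obtain ⟨K, hK, h1⟩ := weil (e (G : Cent F ⧸ A)) _ (fun n => (sq n).q0) (by
    have : Tendsto (fun n => e ((G ^ (sq n).q : Cent F) : Cent F ⧸ A)) atTop
        (𝓝 (e ((1 : Cent F) : Cent F ⧸ A))) :=
      ((e.continuous.comp QuotientGroup.continuous_mk).tendsto 1).comp G_rigid
    simpa using this)
  let ψ : Cent F ⧸ A → C(M, M) := Quotient.lift (fun g => cm (g * S * g⁻¹)) fun a b h => by
    have := Subgroup.mem_center_iff.1 (hA (QuotientGroup.leftRel_apply.1 h)) S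
    rw [show b * S * b⁻¹ = a * (a⁻¹ * b * S) * b⁻¹ by group, ← this]; congr 1; group
  have h2 : Continuous ψ := Continuous.quotient_lift
    (cm_cont.compCM ((continuous_const (y := cm S)).compCM cm_inv)) _
  have h3 : Continuous fun p : M × L => ψ (e.symm p.2) p.1 := by fun_prop
  obtain ⟨δ, hδ, h4⟩ := Metric.eventually_nhds_iff.1 (hK.eventually_forall_of_forall_eventually
    (x₀ := (1 : M)) (P := fun x l => dist (ψ (e.symm l) x) (ψ (e.symm l) 1) < 1) fun l _ =>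
    ((h3.dist (h3.comp (continuous_const.prodMk continuous_snd))).tendsto' _ 0
      (by simp)).eventually (gt_mem_nhds one_pos))
  obtain ⟨m, hm⟩ := f_mix (lt_min hδ one_pos)
  obtain ⟨p, h5, h6⟩ := hm 1 (-((f ^ m) 1).1, 1)
  rw [lt_min_iff] at h5 h6
  have h7 := h4 (y := (1, p)) (max_lt (by simpa using hδ) h5.1) _ (h1 m)
  rw [← map_pow, e.symm_apply_apply, ← QuotientGroup.mk_pow] at h7
  have h8 : ∀ x : M, (ψ ((G ^ m : Cent F) : Cent F ⧸ A) x).1 = (f ^ m) x.2 := fun x => by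
    change ((G ^ m).1 (S.1 ((G ^ m).1⁻¹ x))).1 = _
    rw [G_pow]; rfl
  have h9 := (le_max_left _ _).trans_lt ((le_max_left _ _).trans_lt h7)
  rw [h8, h8] at h9
  have h10 := dist_triangle_left ((f ^ m) 1).1 (-((f ^ m) 1).1) ((f ^ m) p).1
  have h11 : dist ((f ^ m) 1).1 (-((f ^ m) 1).1) = 2 := by
    change dist (((f ^ m) 1).1 : ℂ) (-_) = _
    rw [dist_eq_norm, sub_neg_eq_add, ← two_mul, norm_mul, Circle.norm_coe]; simp
  have h12 := (le_max_left _ _).trans_lt h6.2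
  dsimp only [Prod.snd_one] at h9 h12
  linarith⟩

end Pool.Agent.H.MP_96d1d5_an
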